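import Mathlib
import Pool.Agent.N541.HC.Stm2
import Pool.Agent.N541.HC.Flow

/-!
# Task B of project HC: the decomposition in an equivariant part and a small part (helper618)
-/

open MeasureTheory Filter Pool.Agent.N991.MK
open Pool.Agent.N989.MK
open Pool.Agent.N541.HC

namespace Pool.Agent.N618.HC

set_option linter.unusedSectionVars false

noncomputable section

variable {G : Type*} [Group G] [TopologicalSpace G] [IsTopologicalGroup G] [CompactSpace G]
  [MeasurableSpace G] [BorelSpace G] [SecondCountableTopology G]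
  {𝔸 : Type*} [NormedRing 𝔸] [NormedAlgebra ℝ 𝔸] [CompleteSpace 𝔸]
  {μ : Measure G} [IsProbabilityMeasure μ] [μ.IsHaarMeasure] [μ.IsMulRightInvariant]
  [μ.IsInvInvariant]

lemma int_cont {f : G → 𝔸} (hf : Continuous f) : Integrable f μ :=
  hf.integrable_of_hasCompactSupport (HasCompactSupport.of_compactSpace _)

lemma cv_cont {f g : G → 𝔸} (hf : Continuous f) (hg : Continuous g) : Continuous (cv μ f g) := by
  unfold cv
  have h := continuous_parametric_integral_of_continuous (μ := μ)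
    (f := fun (x y : G) => f y * g (y⁻¹ * x)) (s := Set.univ) (by
      refine (hf.comp continuous_snd).mul (hg.comp ?_)
      exact (continuous_snd.inv).mul continuous_fst) isCompact_univ
  simpa using h

lemma cv_norm_le {f g : G → 𝔸} {F K : G → ℝ} (hf : Continuous f) (hg : Continuous g)
    (hF : Continuous F) (hK : Continuous K) (h1 : ∀ x, ‖f x‖ ≤ F x) (h2 : ∀ x, ‖g x‖ ≤ K x)
    (x : G) : ‖cv μ f g x‖ ≤ conv μ F K x := by
  unfold cv conv
  have c1 : Continuous fun y => f y * g (y⁻¹ * x) := by fun_prop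
  have c2 : Continuous fun y => F y * K (y⁻¹ * x) := by fun_prop
  refine (norm_integral_le_integral_norm _).trans ?_
  refine integral_mono (int_cont c1).norm (integrable_of_cont c2) fun y => ?_
  show ‖f y * g (y⁻¹ * x)‖ ≤ F y * K (y⁻¹ * x)
  exact (norm_mul_le _ _).trans
    (mul_le_mul (h1 y) (h2 _) (norm_nonneg _) ((norm_nonneg _).trans (h1 y)))

lemma cv_sub_l {f f' g : G → 𝔸} (hf : Continuous f) (hf' : Continuous f') (hg : Continuous g)
    (x : G) : cv μ (fun y => f y - f' y) g x = cv μ f g x - cv μ f' g x := by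
  unfold cv
  have c1 : Continuous fun y => f y * g (y⁻¹ * x) := by fun_prop
  have c2 : Continuous fun y => f' y * g (y⁻¹ * x) := by fun_prop
  rw [← integral_sub (int_cont c1) (int_cont c2)]
  refine integral_congr_ae (Filter.Eventually.of_forall fun y => ?_)
  beta_reduce
  rw [sub_mul]

lemma cv_sub_r {f g g' : G → 𝔸} (hf : Continuous f) (hg : Continuous g) (hg' : Continuous g')
    (x : G) : cv μ f (fun y => g y - g' y) x = cv μ f g x - cv μ f g' x := by
  unfold cv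
  have c1 : Continuous fun y => f y * g (y⁻¹ * x) := by fun_prop
  have c2 : Continuous fun y => f y * g' (y⁻¹ * x) := by fun_prop
  rw [← integral_sub (int_cont c1) (int_cont c2)]
  refine integral_congr_ae (Filter.Eventually.of_forall fun y => ?_)
  beta_reduce
  rw [mul_sub]

lemma int_conj (F : G → 𝔸) (g : G) : ∫ y, F (g * y * g⁻¹) ∂μ = ∫ y, F y ∂μ := by
  have h1 := integral_mul_left_eq_self (μ := μ) (fun y => F (y * g⁻¹)) g
  have h2 := integral_mul_right_eq_self (μ := μ) F g⁻¹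
  exact h1.trans h2

lemma rho_inv (ρ : G →* 𝔸) (g : G) : ρ g * ρ g⁻¹ = 1 := by
  rw [← map_mul, mul_inv_cancel, map_one]

lemma rho_inv' (ρ : G →* 𝔸) (g : G) : ρ g⁻¹ * ρ g = 1 := by
  rw [← map_mul, inv_mul_cancel, map_one]

/-- left equivariance under a subgroup -/
def LH (ρ : G →* 𝔸) (H : Subgroup G) (F : G → 𝔸) : Prop := ∀ h ∈ H, ∀ x, F (h * x) = ρ h * F x

lemma LH.sub {ρ : G →* 𝔸} {H : Subgroup G} {f g : G → 𝔸} (hf : LH ρ H f) (hg : LH ρ H g) :
    LH ρ H (fun x => f x - g x) := by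
  intro h hh x
  show f (h * x) - g (h * x) = ρ h * (f x - g x)
  rw [hf h hh, hg h hh, mul_sub]

lemma LH.add {ρ : G →* 𝔸} {H : Subgroup G} {f g : G → 𝔸} (hf : LH ρ H f) (hg : LH ρ H g) :
    LH ρ H (fun x => f x + g x) := by
  intro h hh x
  show f (h * x) + g (h * x) = ρ h * (f x + g x)
  rw [hf h hh, hg h hh, mul_add]

lemma LH.cv_left {ρ : G →* 𝔸} {H : Subgroup G} {f g : G → 𝔸} (cf : Continuous f)
    (cg : Continuous g) (hf : LH ρ H f) : LH ρ H (cv μ f g) := by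
  intro h hh x
  unfold cv
  rw [← integral_mul_left_eq_self (μ := μ) (fun y => f y * g (y⁻¹ * (h * x))) h,
    ← integral_const_mul_of_integrable (int_cont (μ := μ) (f := fun y => f y * g (y⁻¹ * x))
      (by fun_prop))]
  refine integral_congr_ae (Filter.Eventually.of_forall fun y => ?_)
  beta_reduce
  rw [hf h hh, mul_assoc]
  congr 3
  group

lemma eqv_cv {ρ : G →* 𝔸} {f g : G → 𝔸} (cf : Continuous f) (cg : Continuous g)
    (hf : Eqv ρ f) (hg : Eqv ρ g) : Eqv ρ (cv μ f g) := by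
  intro h x
  unfold Pool.Agent.N541.HC.cv
  have ci : Integrable (fun y => f y * g (y⁻¹ * x)) μ := int_cont (by fun_prop)
  rw [← int_conj (fun y => f y * g (y⁻¹ * (h * x * h⁻¹))) h,
    ← integral_const_mul_of_integrable ci, ← integral_mul_const_of_integrable (ci.const_mul _)]
  refine integral_congr_ae (Filter.Eventually.of_forall fun y => ?_)
  beta_reduce
  have e : (h * y * h⁻¹)⁻¹ * (h * x * h⁻¹) = h * (y⁻¹ * x) * h⁻¹ := by group
  rw [e, hf, hg]
  calc ρ h * f y * ρ h⁻¹ * (ρ h * g (y⁻¹ * x) * ρ h⁻¹)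
      = ρ h * f y * (ρ h⁻¹ * ρ h) * g (y⁻¹ * x) * ρ h⁻¹ := by simp only [mul_assoc]
    _ = ρ h * (f y * g (y⁻¹ * x)) * ρ h⁻¹ := by rw [rho_inv', mul_one]; simp only [mul_assoc]

lemma LH.cv_right {ρ : G →* 𝔸} {H : Subgroup G} {f g : G → 𝔸} (cf : Continuous f)
    (cg : Continuous g) (hf : Eqv ρ f) (hg : LH ρ H g) : LH ρ H (cv μ f g) := by
  intro h hh x
  unfold cv
  have ci : Integrable (fun y => f y * g (y⁻¹ * x)) μ := int_cont (by fun_prop)
  rw [← int_conj (fun y => f y * g (y⁻¹ * (h * x))) h,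
    ← integral_const_mul_of_integrable ci]
  refine integral_congr_ae (Filter.Eventually.of_forall fun y => ?_)
  beta_reduce
  have e : (h * y * h⁻¹)⁻¹ * (h * x) = h * (y⁻¹ * x) := by group
  rw [e, hf, hg h hh]
  calc ρ h * f y * ρ h⁻¹ * (ρ h * g (y⁻¹ * x))
      = ρ h * f y * (ρ h⁻¹ * ρ h) * g (y⁻¹ * x) := by simp only [mul_assoc]
    _ = ρ h * (f y * g (y⁻¹ * x)) := by rw [rho_inv', mul_one]; simp only [mul_assoc]

/-- the difference of the convolutions of functions and of their small parts -/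
lemma LH.cv_diff {ρ : G →* 𝔸} {H : Subgroup G} {f g f' g' : G → 𝔸} (cf : Continuous f)
    (cg : Continuous g) (cf' : Continuous f') (cg' : Continuous g')
    (hf : LH ρ H (fun x => f x - f' x)) (hg : LH ρ H (fun x => g x - g' x)) (ef' : Eqv ρ f') :
    LH ρ H (fun x => cv μ f g x - cv μ f' g' x) := by
  have h1 : LH ρ H (cv μ (fun x => f x - f' x) g) := LH.cv_left (cf.sub cf') cg hf
  have h2 : LH ρ H (cv μ f' (fun x => g x - g' x)) := LH.cv_right cf' (cg.sub cg') ef' hg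
  have h3 : (fun x => cv μ f g x - cv μ f' g' x) =
      fun x => cv μ (fun x => f x - f' x) g x + cv μ f' (fun x => g x - g' x) x := by
    funext x
    rw [cv_sub_l cf cf' cg, cv_sub_r cf' cg cg']
    abel
  rw [h3]
  exact h1.add h2

/-- the induction hypothesis -/
def Dc (μ : Measure G) (H : Subgroup G) (ρ : G →* 𝔸) (F : G → 𝔸) (e : ℝ) (Z : G → ℝ) : Prop :=
  ∃ U K : G → 𝔸, Continuous U ∧ Continuous K ∧ (∀ x, F x = U x + K x) ∧ LH ρ H U ∧
    Eqv ρ U ∧ Eqv ρ K ∧ (∀ x, ‖K x‖ ≤ e * Z x) ∧ (∀ x, ‖F x‖ ≤ Z x)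

lemma eqv_add {ρ : G →* 𝔸} {f g : G → 𝔸} (hf : Eqv ρ f) (hg : Eqv ρ g) :
    Eqv ρ (fun x => f x + g x) := by
  intro h x
  show f (h * x * h⁻¹) + g (h * x * h⁻¹) = ρ h * (f x + g x) * ρ h⁻¹
  rw [hf, hg, mul_add, add_mul]

lemma eqv_sub {ρ : G →* 𝔸} {f g : G → 𝔸} (hf : Eqv ρ f) (hg : Eqv ρ g) :
    Eqv ρ (fun x => f x - g x) := by
  intro h x
  show f (h * x * h⁻¹) - g (h * x * h⁻¹) = ρ h * (f x - g x) * ρ h⁻¹
  rw [hf, hg, mul_sub, sub_mul]

lemma eqv_smul {ρ : G →* 𝔸} {m : G → ℝ} {g : G → 𝔸} (hm : Cls m) (hg : Eqv ρ g) :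
    Eqv ρ (fun x => m x • g x) := by
  intro h x
  show m (h * x * h⁻¹) • g (h * x * h⁻¹) = ρ h * (m x • g x) * ρ h⁻¹
  rw [hm, hg, mul_smul_comm, smul_mul_assoc]

lemma eqv_self (ρ : G →* 𝔸) : Eqv ρ (fun x => ρ x) := by
  intro h x
  show ρ (h * x * h⁻¹) = _
  rw [map_mul, map_mul]

lemma eqv_one (ρ : G →* 𝔸) : Eqv ρ (fun _ => (1 : 𝔸)) := by
  intro h x
  show (1 : 𝔸) = ρ h * 1 * ρ h⁻¹
  rw [mul_one, rho_inv]

/-- the step -/
lemma step {H : Subgroup G} {ρ : G →* 𝔸} {Z : G → ℝ} (hZ : Adm Z) {F : Fin 4 → G → 𝔸}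
    {e : Fin 4 → ℝ} (he : ∀ q, 0 ≤ e q) (hD : ∀ q, Dc μ H ρ (F q) (e q) Z) {Q E : ℝ}
    (hm : Minor H Q (fun x => H4 μ Z x ^ 3)) (he1 : e 1 * e 0 * (e 3 * e 2) ≤ 1)
    (hE : Q + (1 - Q) * (e 1 * e 0 * (e 3 * e 2)) ≤ E) :
    Dc μ H ρ (fun x => (H4 μ Z x) ^ 3 • cv4 μ F x) E (TT μ Z) := by
  choose U K cU cK hF lU eU eK nK nF using hD
  obtain ⟨m, cm, clm, hinv, hm⟩ := hm
  have cF : ∀ q, Continuous (F q) := fun q => by
    have : F q = fun x => U q x + K q x := funext (hF q)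
    rw [this]
    exact (cU q).add (cK q)
  have eF : ∀ q, Eqv ρ (F q) := fun q => by
    have : F q = fun x => U q x + K q x := funext (hF q)
    rw [this]
    exact eqv_add (eU q) (eK q)
  have hFK : ∀ q, (fun x => F q x - K q x) = U q := fun q => by
    funext x
    rw [hF q x]
    abel
  have A4 : Adm (H4 μ Z) := hZ.H4
  set T : G → 𝔸 := cv4 μ F with hT
  set T' : G → 𝔸 := cv4 μ K with hT'
  have cT : Continuous T := cv_cont (cv_cont (cF 1) (cF 0)) (cv_cont (cF 3) (cF 2))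
  have cT' : Continuous T' := cv_cont (cv_cont (cK 1) (cK 0)) (cv_cont (cK 3) (cK 2))
  have eT : Eqv ρ T := eqv_cv (cv_cont (cF 1) (cF 0)) (cv_cont (cF 3) (cF 2))
    (eqv_cv (cF 1) (cF 0) (eF 1) (eF 0)) (eqv_cv (cF 3) (cF 2) (eF 3) (eF 2))
  have eT' : Eqv ρ T' := eqv_cv (cv_cont (cK 1) (cK 0)) (cv_cont (cK 3) (cK 2))
    (eqv_cv (cK 1) (cK 0) (eK 1) (eK 0)) (eqv_cv (cK 3) (cK 2) (eK 3) (eK 2))
  have lT : LH ρ H (fun x => T x - T' x) := by
    refine LH.cv_diff (cv_cont (cF 1) (cF 0)) (cv_cont (cF 3) (cF 2)) (cv_cont (cK 1) (cK 0))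
      (cv_cont (cK 3) (cK 2)) ?_ ?_ (eqv_cv (cK 1) (cK 0) (eK 1) (eK 0))
    · exact LH.cv_diff (cF 1) (cF 0) (cK 1) (cK 0) (by rw [hFK]; exact lU 1)
        (by rw [hFK]; exact lU 0) (eK 1)
    · exact LH.cv_diff (cF 3) (cF 2) (cK 3) (cK 2) (by rw [hFK]; exact lU 3)
        (by rw [hFK]; exact lU 2) (eK 3)
  -- norms
  have nT : ∀ x, ‖T x‖ ≤ H4 μ Z x := by
    have c2 : Continuous (conv μ Z Z) := cont_conv hZ.cont hZ.cont
    exact cv_norm_le (cv_cont (cF 1) (cF 0)) (cv_cont (cF 3) (cF 2)) c2 c2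
      (cv_norm_le (cF 1) (cF 0) hZ.cont hZ.cont (nF 1) (nF 0))
      (cv_norm_le (cF 3) (cF 2) hZ.cont hZ.cont (nF 3) (nF 2))
  have nT' : ∀ x, ‖T' x‖ ≤ e 1 * e 0 * (e 3 * e 2) * H4 μ Z x := by
    have h1 : ∀ q q', ∀ x, ‖cv μ (K q) (K q') x‖ ≤ e q * e q' * conv μ Z Z x := by
      intro q q' x
      have h2 := cv_norm_le (μ := μ) (F := fun y => e q * Z y) (K := fun y => e q' * Z y)
        (cK q) (cK q') (continuous_const.mul hZ.cont)
        (continuous_const.mul hZ.cont) (nK q) (nK q') x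
      rw [conv_smul_l, conv_smul_r] at h2
      linarith
    have c2 : Continuous (conv μ Z Z) := cont_conv hZ.cont hZ.cont
    intro x
    have h3 := cv_norm_le (μ := μ) (F := fun y => e 1 * e 0 * conv μ Z Z y)
      (K := fun y => e 3 * e 2 * conv μ Z Z y) (cv_cont (cK 1) (cK 0)) (cv_cont (cK 3) (cK 2))
      (continuous_const.mul c2) (continuous_const.mul c2) (h1 1 0) (h1 3 2) x
    rw [conv_smul_l, conv_smul_r] at h3
    have h4 : ‖T' x‖ ≤ e 1 * e 0 * (e 3 * e 2 * conv μ (conv μ Z Z) (conv μ Z Z) x) := h3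
    have h5 : H4 μ Z x = conv μ (conv μ Z Z) (conv μ Z Z) x := rfl
    rw [h5]
    linarith
  set ee := e 1 * e 0 * (e 3 * e 2) with hee
  refine ⟨fun x => m x • (T x - T' x), fun x => m x • T' x + ((H4 μ Z x) ^ 3 - m x) • T x,
    cm.smul (cT.sub cT'), (cm.smul cT').add (((A4.cont.pow 3).sub cm).smul cT), ?_, ?_, ?_, ?_, ?_,
    ?_⟩
  · intro x
    beta_reduce
    rw [smul_sub, sub_smul]
    abel
  · intro h hh x
    show m (h * x) • (T (h * x) - T' (h * x)) = ρ h * (m x • (T x - T' x))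
    rw [hinv h hh x, mul_smul_comm, ← lT h hh x]
  · exact eqv_smul clm (eqv_sub eT eT')
  · refine eqv_add (eqv_smul clm eT') (eqv_smul (m := fun x => H4 μ Z x ^ 3 - m x) ?_ eT)
    intro g x
    show H4 μ Z (g * x * g⁻¹) ^ 3 - m (g * x * g⁻¹) = _
    rw [A4.cls, clm]
  · intro x
    obtain ⟨m0, m1, m2⟩ := hm x
    have hp := A4.pos x
    have h1 : ‖m x • T' x + ((H4 μ Z x) ^ 3 - m x) • T x‖ ≤
        m x * (ee * H4 μ Z x) + ((H4 μ Z x) ^ 3 - m x) * H4 μ Z x := by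
      refine (norm_add_le _ _).trans (add_le_add ?_ ?_)
      · rw [norm_smul, Real.norm_of_nonneg m0]
        exact mul_le_mul_of_nonneg_left (nT' x) m0
      · have m3 : 0 ≤ (H4 μ Z x) ^ 3 - m x := sub_nonneg.2 m1
        rw [norm_smul, Real.norm_of_nonneg m3]
        exact mul_le_mul_of_nonneg_left (nT x) m3
    refine h1.trans ?_
    have h2 : TT μ Z x = (H4 μ Z x) ^ 3 * H4 μ Z x := by
      show H4 μ Z x ^ 4 = _
      ring
    rw [h2]
    have h3 : m x * (ee * H4 μ Z x) + ((H4 μ Z x) ^ 3 - m x) * H4 μ Z x =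
        (H4 μ Z x ^ 3 - m x * (1 - ee)) * H4 μ Z x := by ring
    rw [h3]
    have h4 : H4 μ Z x ^ 3 - m x * (1 - ee) ≤ E * H4 μ Z x ^ 3 := by
      have h5 : (1 - Q) * H4 μ Z x ^ 3 * (1 - ee) ≤ m x * (1 - ee) :=
        mul_le_mul_of_nonneg_right m2 (by linarith)
      have h6 : (Q + (1 - Q) * ee) * H4 μ Z x ^ 3 ≤ E * H4 μ Z x ^ 3 :=
        mul_le_mul_of_nonneg_right hE (pow_pos hp 3).le
      nlinarith
    calc (H4 μ Z x ^ 3 - m x * (1 - ee)) * H4 μ Z x ≤ (E * H4 μ Z x ^ 3) * H4 μ Z x :=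
          mul_le_mul_of_nonneg_right h4 hp.le
      _ = _ := by ring
  · intro x
    have hp := A4.pos x
    have h2 : TT μ Z x = (H4 μ Z x) ^ 3 * H4 μ Z x := by
      show H4 μ Z x ^ 4 = _
      ring
    rw [h2, norm_smul, Real.norm_of_nonneg (pow_pos hp 3).le]
    exact mul_le_mul_of_nonneg_left (nT x) (pow_pos hp 3).le

/-- all levels -/
lemma allDc {H : Subgroup G} {ρ : G →* 𝔸} {w : G → ℝ} {Q lam : ℕ → ℝ} (hρ : Continuous ρ)
    (hρ1 : ∀ g, ‖ρ g‖ ≤ 1) (h1 : ‖(1 : 𝔸)‖ ≤ 1) (hw : Adm w) (hL : Lam Q lam)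
    (hm0 : Minor H (Q 0) w)
    (hm : ∀ n, Minor H (Q (n + 1)) (fun x => H4 μ (Zr μ w n) x ^ 3)) :
    ∀ n a b : ℕ, a ≤ 2 ^ n → b ≤ 2 ^ n →
      Dc μ H ρ (FR μ w ρ n a b) (Real.exp (-(lam n * (a * b)))) (Zr μ w n) := by
  intro n
  induction n with
  | zero =>
    intro a b ha hb
    rw [pow_zero] at ha hb
    by_cases hab : a = 0 ∨ b = 0
    · have hF : FR μ w ρ 0 a b = fun x => w x • (1 : 𝔸) := by
        funext x
        show (if a = 0 ∨ b = 0 then w x • (1 : 𝔸) else w x • ρ x) = _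
        rw [if_pos hab]
      have hab0 : (a : ℝ) * b = 0 := by
        rcases hab with h | h <;> simp [h]
      have hn : ∀ x, ‖w x • (1 : 𝔸)‖ ≤ w x := by
        intro x
        rw [norm_smul, Real.norm_of_nonneg (hw.pos x).le]
        have := mul_le_mul_of_nonneg_left h1 (hw.pos x).le
        linarith
      rw [hF, hab0, mul_zero, neg_zero, Real.exp_zero]
      refine ⟨fun _ => 0, fun x => w x • (1 : 𝔸), continuous_const, hw.cont.smul continuous_const,
        fun x => by simp, fun h _ x => by simp, fun h x => by simp,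
        eqv_smul hw.cls (eqv_one ρ), ?_, ?_⟩
      · intro x
        rw [one_mul]
        exact hn x
      · exact hn
    · have ha1 : a = 1 := by omega
      have hb1 : b = 1 := by omega
      subst ha1 hb1
      have hF : FR μ w ρ 0 1 1 = fun x => w x • ρ x := by
        funext x
        show (if (1 : ℕ) = 0 ∨ (1 : ℕ) = 0 then w x • (1 : 𝔸) else w x • ρ x) = _
        rw [if_neg (by omega)]
      obtain ⟨m, cm, clm, hinv, hm⟩ := hm0
      rw [hF]
      have hZ0 : Zr μ w 0 = w := rfl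
      rw [hZ0]
      refine ⟨fun x => m x • ρ x, fun x => (w x - m x) • ρ x, cm.smul hρ,
        (hw.cont.sub cm).smul hρ, ?_, ?_, eqv_smul clm (eqv_self ρ), ?_, ?_, ?_⟩
      · intro x
        beta_reduce
        rw [sub_smul]
        abel
      · intro h hh x
        show m (h * x) • ρ (h * x) = ρ h * (m x • ρ x)
        rw [hinv h hh, map_mul, mul_smul_comm]
      · refine eqv_smul (m := fun x => w x - m x) ?_ (eqv_self ρ)
        intro g x
        show w (g * x * g⁻¹) - m (g * x * g⁻¹) = _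
        rw [hw.cls, clm]
      · intro x
        obtain ⟨m0, m1, m2⟩ := hm x
        have m3 : 0 ≤ w x - m x := sub_nonneg.2 m1
        show ‖(w x - m x) • ρ x‖ ≤ _
        rw [norm_smul, Real.norm_of_nonneg m3]
        have h2 : (w x - m x) * ‖ρ x‖ ≤ (w x - m x) * 1 := mul_le_mul_of_nonneg_left (hρ1 x) m3
        have h3 := mul_le_mul_of_nonneg_right hL.zero (hw.pos x).le
        have h4 : (-(lam 0 * (((1 : ℕ) : ℝ) * ((1 : ℕ) : ℝ)))) = -lam 0 := by push_cast; ring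
        rw [h4]
        linarith
      · intro x
        show ‖w x • ρ x‖ ≤ _
        rw [norm_smul, Real.norm_of_nonneg (hw.pos x).le]
        have := mul_le_mul_of_nonneg_left (hρ1 x) (hw.pos x).le
        linarith
  | succ n ih =>
    intro a b ha hb
    have hZ : Adm (Zr μ w n) := by
      rw [Zr_eq]
      exact hw.TTn n
    rw [pow_succ] at ha hb
    set F : Fin 4 → G → 𝔸 := ![FR μ w ρ n (min a (2 ^ n)) (min b (2 ^ n)),
      FR μ w ρ n (a - 2 ^ n) (min b (2 ^ n)), FR μ w ρ n (min a (2 ^ n)) (b - 2 ^ n),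
      FR μ w ρ n (a - 2 ^ n) (b - 2 ^ n)] with hF
    set A : Fin 4 → ℕ := ![min a (2 ^ n), a - 2 ^ n, min a (2 ^ n), a - 2 ^ n] with hA
    set B : Fin 4 → ℕ := ![min b (2 ^ n), min b (2 ^ n), b - 2 ^ n, b - 2 ^ n] with hB
    have hq : ∀ q, Dc μ H ρ (F q) (Real.exp (-(lam n * (A q * B q)))) (Zr μ w n) := by
      intro q
      fin_cases q
      · exact ih (min a (2 ^ n)) (min b (2 ^ n)) (min_le_right _ _) (min_le_right _ _)
      · exact ih (a - 2 ^ n) (min b (2 ^ n)) (by omega) (min_le_right _ _)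
      · exact ih (min a (2 ^ n)) (b - 2 ^ n) (min_le_right _ _) (by omega)
      · exact ih (a - 2 ^ n) (b - 2 ^ n) (by omega) (by omega)
    have hsa : min a (2 ^ n) + (a - 2 ^ n) = a := by omega
    have hsb : min b (2 ^ n) + (b - 2 ^ n) = b := by omega
    have hsum : ((a - 2 ^ n : ℕ) : ℝ) * (min b (2 ^ n) : ℕ) +
        ((min a (2 ^ n) : ℕ) : ℝ) * (min b (2 ^ n) : ℕ) +
        (((a - 2 ^ n : ℕ) : ℝ) * (b - 2 ^ n : ℕ) +
        ((min a (2 ^ n) : ℕ) : ℝ) * (b - 2 ^ n : ℕ)) = a * b := by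
      have e1 : (a : ℝ) = ((min a (2 ^ n) : ℕ) : ℝ) + ((a - 2 ^ n : ℕ) : ℝ) := by
        rw [← Nat.cast_add, hsa]
      have e2 : (b : ℝ) = ((min b (2 ^ n) : ℕ) : ℝ) + ((b - 2 ^ n : ℕ) : ℝ) := by
        rw [← Nat.cast_add, hsb]
      conv_rhs => rw [e1, e2]
      ring
    have hprod : Real.exp (-(lam n * (A 1 * B 1))) * Real.exp (-(lam n * (A 0 * B 0))) *
        (Real.exp (-(lam n * (A 3 * B 3))) * Real.exp (-(lam n * (A 2 * B 2)))) =
        Real.exp (-(lam n * (a * b))) := by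
      rw [← Real.exp_add, ← Real.exp_add, ← Real.exp_add]
      congr 1
      rw [← hsum]
      show -(lam n * (((a - 2 ^ n : ℕ) : ℝ) * ((min b (2 ^ n) : ℕ) : ℝ))) +
        -(lam n * (((min a (2 ^ n) : ℕ) : ℝ) * ((min b (2 ^ n) : ℕ) : ℝ))) +
        (-(lam n * (((a - 2 ^ n : ℕ) : ℝ) * ((b - 2 ^ n : ℕ) : ℝ))) +
        -(lam n * (((min a (2 ^ n) : ℕ) : ℝ) * ((b - 2 ^ n : ℕ) : ℝ)))) = _
      ring
    have hle : Real.exp (-(lam n * (a * b))) ≤ 1 := by
      rw [Real.exp_le_one_iff]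
      have : 0 ≤ lam n * ((a : ℝ) * b) := mul_nonneg (hL.pos n).le (by positivity)
      linarith
    have hE : Q (n + 1) + (1 - Q (n + 1)) * Real.exp (-(lam n * ((a : ℝ) * b))) ≤
        Real.exp (-(lam (n + 1) * (a * b))) := by
      by_cases hab : a * b = 0
      · have hab0 : (a : ℝ) * b = 0 := by exact_mod_cast hab
        rw [hab0]
        simp
      · refine hL.step n (a * b) ?_ ?_
        · have : 1 ≤ a * b := Nat.one_le_iff_ne_zero.2 hab
          exact_mod_cast this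
        · have h4 : (4 : ℕ) ^ (n + 1) = (2 ^ n * 2) * (2 ^ n * 2) := by
            rw [pow_succ, show (4 : ℕ) = 2 * 2 by norm_num, mul_pow]
            ring
          have : a * b ≤ 4 ^ (n + 1) := by
            rw [h4]
            exact Nat.mul_le_mul ha hb
          exact_mod_cast this
    have hmain := step (μ := μ) (H := H) (ρ := ρ) hZ (F := F)
      (e := fun q => Real.exp (-(lam n * (A q * B q)))) (fun q => (Real.exp_pos _).le) hq
      (Q := Q (n + 1)) (E := Real.exp (-(lam (n + 1) * (a * b)))) (hm n)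
      (by
        show Real.exp (-(lam n * (A 1 * B 1))) * Real.exp (-(lam n * (A 0 * B 0))) *
          (Real.exp (-(lam n * (A 3 * B 3))) * Real.exp (-(lam n * (A 2 * B 2)))) ≤ 1
        rw [hprod]; exact hle)
      (by
        show Q (n + 1) + (1 - Q (n + 1)) * (Real.exp (-(lam n * (A 1 * B 1))) *
          Real.exp (-(lam n * (A 0 * B 0))) *
          (Real.exp (-(lam n * (A 3 * B 3))) * Real.exp (-(lam n * (A 2 * B 2))))) ≤ _
        rw [hprod]; exact hE)
    exact hmain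

/-- Task B -/
theorem taskB : TaskB G 𝔸 := by
  intro μ _ _ _ _ H _ ρ w Q lam hρ hρ1 h1 hw hL hm0 hm n a b ha hb
  obtain ⟨U, K, cU, cK, hF, lU, -, -, nK, nF⟩ := allDc (μ := μ) hρ hρ1 h1 hw hL hm0 hm n a b ha hb
  exact ⟨U, K, cU, cK, hF, lU, nK, nF⟩

end

end Pool.Agent.N618.HC
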